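import Mathlib
import Pool.Agent.Lib.H16I.ErdosSums

/-!
# The two inequalities of Erdős for sums of consecutive `n`-th powers
-/

set_option autoImplicit false

namespace Pool.Agent.Results.MP_91e459_nt.BothInequalities

/-- `Sₙ(k) = 1ⁿ + 2ⁿ + ⋯ + kⁿ`, with `Sₙ(0) = 0`. -/
def powerSum (n k : ℕ) : ℕ := ∑ i ∈ Finset.Icc 1 k, i ^ n

/-- `(1 - 1/M)ⁿ < 1/2` implies `Mⁿ > Sₙ(M - 1)`. -/
lemma below {M n : ℕ} (hM : 1 ≤ M) (h : (1 - 1 / (M : ℝ)) ^ n < 1 / 2) :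
    powerSum n (M - 1) < M ^ n := by
  apply Lib.H16I.ErdosSums.first_ineq hM
  have hM0 : (0 : ℝ) < M := by exact_mod_cast hM
  have e : (1 - 1 / (M : ℝ)) = ((M - 1 : ℕ) : ℝ) / M := by
    rw [Nat.cast_sub hM]; field_simp; simp
  rw [e, div_pow, div_lt_div_iff₀ (by positivity) (by norm_num)] at h
  have : ((2 * (M - 1) ^ n : ℕ) : ℝ) < ((M ^ n : ℕ) : ℝ) := by push_cast at h ⊢; linarith
  exact_mod_cast this

/-- `(1 - 1/m)ⁿ > 1/2` implies `(m + 1)ⁿ < Sₙ(m)`, with a margin. -/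
lemma above_margin {m n : ℕ} (hn : 1 ≤ n) (hm : 1 ≤ m) (h : (1 - 1 / (m : ℝ)) ^ n > 1 / 2) :
    (1000 * (m + 1) ^ 2 + 1) * (m + 1) ^ n < 1000 * (m + 1) ^ 2 * powerSum n m := by
  have hm0 : (0 : ℝ) < m := by exact_mod_cast hm
  have h1 : m ^ n < 2 * (m - 1) ^ n := by
    have e : (1 - 1 / (m : ℝ)) = ((m - 1 : ℕ) : ℝ) / m := by
      rw [Nat.cast_sub hm]; field_simp; simp
    have h' := h
    rw [e, div_pow, gt_iff_lt, div_lt_div_iff₀ (by norm_num) (by positivity)] at h'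
    have : ((m ^ n : ℕ) : ℝ) < ((2 * (m - 1) ^ n : ℕ) : ℝ) := by push_cast at h' ⊢; linarith
    exact_mod_cast this
  have hm3 : 3 ≤ m := by
    by_contra hcon
    rcases (by omega : m = 1 ∨ m = 2) with h2 | h2
    · subst h2
      rw [Nat.sub_self, Nat.zero_pow (by omega), one_pow] at h1
      omega
    · subst h2
      have h3 : 2 ^ 1 ≤ 2 ^ n := Nat.pow_le_pow_right (by norm_num) hn
      simp at h1
      omega
  rcases lt_or_ge m 2999 with hc | hc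
  · exact Lib.H16I.ErdosSums.small_case hm3 hc h1
  · exact Lib.H16I.ErdosSums.big_case hc h

/-- The two inequalities of Erdős, each from one half of admissibility: for all integers `m ≥ 2`
and `n ≥ 1`, `(1 - 1/(m-1))ⁿ < 1/2` implies `(m-1)ⁿ > Sₙ(m-2)`, and `(1 - 1/m)ⁿ > 1/2` implies
`Sₙ(m) > (1 + 1 / (1000 (m+1)²)) (m+1)ⁿ`. -/
theorem result (m n : ℕ) (hm : 2 ≤ m) (hn : 1 ≤ n) :
    ((1 - 1 / ((m : ℝ) - 1)) ^ n < 1 / 2 → (m - 1) ^ n > powerSum n (m - 2)) ∧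
    ((1 - 1 / (m : ℝ)) ^ n > 1 / 2 →
      (powerSum n m : ℝ) > (1 + 1 / (1000 * ((m : ℝ) + 1) ^ 2)) * ((m : ℝ) + 1) ^ n) := by
  constructor
  · intro h
    have e : (m : ℝ) - 1 = ((m - 1 : ℕ) : ℝ) := by
      rw [Nat.cast_sub (by omega)]; simp
    rw [e] at h
    have h3 := below (M := m - 1) (by omega) h
    rwa [show m - 1 - 1 = m - 2 by omega] at h3
  · intro h
    have h1 : (((1000 * (m + 1) ^ 2 + 1) * (m + 1) ^ n : ℕ) : ℝ)
        < ((1000 * (m + 1) ^ 2 * powerSum n m : ℕ) : ℝ) := by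
      exact_mod_cast above_margin hn (le_trans one_le_two hm) h
    push_cast at h1
    have h2 : (0 : ℝ) < 1000 * ((m : ℝ) + 1) ^ 2 := by positivity
    have h3 : (1 + 1 / (1000 * ((m : ℝ) + 1) ^ 2)) * ((m : ℝ) + 1) ^ n
        = ((1000 * ((m : ℝ) + 1) ^ 2 + 1) * ((m : ℝ) + 1) ^ n)
          / (1000 * ((m : ℝ) + 1) ^ 2) := by
      field_simp
    rw [h3, gt_iff_lt, div_lt_iff₀ h2]
    linarith

end Pool.Agent.Results.MP_91e459_nt.BothInequalities
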